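import Mathlib
import Pool.Agent.H.MP_06b617_an.A

namespace Pool.Agent.Results.MP_06b617_an.Converges

open Filter Topology Set Pool.Agent.H.MP_06b617_an

theorem result {X : Type*} [NormedAddCommGroup X] [NormedSpace ℝ X] [CompleteSpace X]
    [TopologicalSpace.SeparableSpace X] [PartialOrder X] [IsOrderedAddMonoid X] [PosSMulMono ℝ X]
    (hcl : IsClosed {x : X | 0 ≤ x})
    (hS : ∀ x : ℕ → X, Monotone x → BddAbove (range x) → ∃ s, IsLUB (range x) s)
    (x : ℕ → X) (hx : Monotone x) (hb : BddAbove (range x)) : ∃ l, Tendsto x atTop (𝓝 l) := by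
  classical
  obtain ⟨c, hc, hn⟩ := normal hcl hS
  refine cauchySeq_tendsto_of_complete (Metric.cauchySeq_iff'.2 fun ε hε => ?_)
  by_contra h
  push Not at h
  choose g hg hg' using h
  let n : ℕ → ℕ := fun k => g^[k] 0
  have hn' (k : ℕ) : n (k + 1) = g (n k) := Function.iterate_succ_apply' _ _ _
  let d : ℕ → X := fun k => x (n (k + 1)) - x (n k)
  have hd (k : ℕ) : 0 ≤ d k := sub_nonneg.2 (hx (hn' k ▸ hg _))
  have hd' (k : ℕ) : ε ≤ ‖d k‖ := by rw [← dist_eq_norm, hn']; exact hg' _
  let P : Set ℕ → ℕ → X := fun A N => ∑ k ∈ Finset.range N, A.indicator d k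
  have hi (A : Set ℕ) (k : ℕ) : 0 ≤ A.indicator d k := indicator_nonneg (fun k _ => hd k) k
  have hP (A : Set ℕ) : Monotone (P A) := fun N M h =>
    Finset.sum_le_sum_of_subset_of_nonneg (Finset.range_mono h) fun i _ _ => hi A i
  obtain ⟨u, hu⟩ := hb
  choose s hs using fun A => hS (P A) (hP A) ⟨u - x (n 0), forall_mem_range.2 fun N =>
    (Finset.sum_le_sum fun k _ => indicator_apply_le' (fun _ => le_rfl) fun _ => hd k).trans (by
      rw [Finset.sum_range_sub fun k => x (n k)]
      exact sub_le_sub_right (hu ⟨_, rfl⟩) _)⟩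
  have key {A B : Set ℕ} (h : A ⊆ B) {k : ℕ} (hk : k ∈ B \ A) : ε ≤ c * dist (s B) (s A) := by
    have h1 : s B = s A + s (B \ A) := by
      refine (hs B).unique ?_
      convert lub_add (hP A) (hP (B \ A)) (hs A) (hs (B \ A)) using 2
      funext N
      simp only [P]
      rw [← Finset.sum_add_distrib]
      refine Finset.sum_congr rfl fun i _ => ?_
      rw [← congrFun (indicator_union_of_disjoint disjoint_sdiff_right d) i, union_sdiff_cancel h]
    rw [dist_eq_norm, h1, add_sub_cancel_left]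
    refine (hd' k).trans (hn _ _ (hd k) (le_trans ?_ ((hs _).1 ⟨k + 1, rfl⟩)))
    rw [← indicator_of_mem hk d]
    exact Finset.single_le_sum (fun i _ => hi _ i) (Finset.self_mem_range_succ k)
  obtain ⟨q, hq⟩ := exists_surjective_nat ℚ
  let A : ℝ → Set ℕ := fun r => {k | (q k : ℝ) < r}
  have sep {r t : ℝ} (h : r < t) : ε ≤ c * dist (s (A t)) (s (A r)) := by
    obtain ⟨a, h1, h2⟩ := exists_rat_btwn h
    obtain ⟨k, rfl⟩ := hq a
    exact key (fun k hk => lt_trans hk h) (k := k) ⟨h2, not_lt.2 h1.le⟩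
  have hd : Pairwise (Function.onFun Disjoint fun r => Metric.ball (s (A r)) (ε / c / 2)) := by
    intro r t h
    refine Metric.ball_disjoint_ball ?_
    rw [add_halves, div_le_iff₀' hc]
    rcases lt_or_gt_of_ne h with h | h
    · rw [dist_comm]; exact sep h
    · exact sep h
  exact not_countable (hd.countable_of_isOpen_disjoint (fun _ => Metric.isOpen_ball)
    fun _ => Metric.nonempty_ball.2 (by positivity))

end Pool.Agent.Results.MP_06b617_an.Converges
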